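import Pool.Agent.H700.VG.Triv
import Pool.Agent.H700.VB.Trig

/-!
# The relative form for the classes of families
-/

set_option autoImplicit false

namespace Pool.Agent.H700.VG

open Finset Pool.Agent.H700.VB

theorem rank_main {s : ℕ} (dd : Fin s → ℕ) (hdd : ∀ r, 1 ≤ dd r) (𝒯 : Finset (Finset (Fin s)))
    (n : ℕ) (τ : ℝ) (hτ0 : 0 ≤ τ)
    (hτ : ∀ T : Finset (Finset (Pt dd n)), τ * 2 ^ Fintype.card (Pt dd n) < #T → Good 𝒯 T)
    (w r : ℕ) (ε : ℝ) (hε : 0 < ε) :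
    ∃ l M : ℕ, ∀ (N : ℕ) (I : Fin M → Finset (Fin N)),
      (∀ k, #(I k) = l) → (∀ j k, j ≠ k → Disjoint (I j) (I k)) →
      ∀ (G : Fin r → Finset (Finset (Pt dd N))) (F S : Finset (Finset (Pt dd N))),
        (∀ i, RankDecided w (fun k => part dd univ (I k)) (G i)) →
        Combination G F → S ⊆ F → ¬ Good 𝒯 S →
        (#S : ℝ) ≤ τ * #F + ε * 2 ^ Fintype.card (Pt dd N) := by
  obtain ⟨l, M, h⟩ := main dd hdd 𝒯 n τ hτ0 hτ w r ε hε
  refine ⟨l, M, fun N I hI hdis G F S hG ⟨g, hg⟩ hSF hgood =>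
    h N I hI hdis G g F S (fun i k => ?_) hg hSF hgood⟩
  exact sections_of_rankDecided w (fun k => part dd univ (I k)) _
    (fun k => subset_biUnion_of_mem (fun k => part dd univ (I k)) (mem_univ k)) (G i) (hG i) k

theorem trig_main {s : ℕ} (dd : Fin s → ℕ) (hdd : ∀ r, 1 ≤ dd r) (𝒯 : Finset (Finset (Fin s)))
    (n : ℕ) (τ : ℝ) (hτ0 : 0 ≤ τ)
    (hτ : ∀ T : Finset (Finset (Pt dd n)), τ * 2 ^ Fintype.card (Pt dd n) < #T → Good 𝒯 T)
    (t r : ℕ) (ε : ℝ) (hε : 0 < ε) :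
    ∃ N₀ : ℕ, ∀ N : ℕ, N₀ ≤ N →
      ∀ (G : Fin r → Finset (Finset (Pt dd N))) (F S : Finset (Finset (Pt dd N))),
        (∀ i, TrigDecided t (G i)) → Combination G F → S ⊆ F → ¬ Good 𝒯 S →
        (#S : ℝ) ≤ τ * #F + ε * 2 ^ Fintype.card (Pt dd N) := by
  classical
  obtain ⟨l, M, hmain⟩ := main dd hdd 𝒯 n τ hτ0 hτ (2 * t + 1) r ε hε
  refine ⟨M * l, fun N hKN G F S hG ⟨g, hg⟩ hSF hgood => ?_⟩
  refine hmain N (fun k => univ.image (Pool.Agent.Y613.PJ.coord (Equiv.refl _) hKN k)) (fun k => ?_)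
    (fun j k hjk => ?_) G g F S (fun i k => ?_) hg hSF hgood
  · rw [card_image_of_injective _ fun x y hxy =>
      (Pool.Agent.Y613.PJ.coord_inj (Equiv.refl _) hKN hxy).2, card_univ, Fintype.card_fin]
  · rw [Finset.disjoint_left]
    intro x hx hx'
    obtain ⟨y, -, rfl⟩ := mem_image.1 hx
    obtain ⟨y', -, hy'⟩ := mem_image.1 hx'
    exact hjk (Pool.Agent.Y613.PJ.coord_inj (Equiv.refl _) hKN hy').1.symm
  · obtain ⟨b, φ, θ, u, hu⟩ := hG i
    exact sections_of_trig t _ _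
      (subset_biUnion_of_mem (fun k => part dd univ
        (univ.image (Pool.Agent.Y613.PJ.coord (Equiv.refl _) hKN k))) (mem_univ k)) (G i) b φ θ u hu

end Pool.Agent.H700.VG
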