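import Pool.Agent.H700.VG.Multi
import Pool.Agent.H700.VB.Sign

/-!
# Families whose sections at blocks have bounded VC dimension: disjoint unions of powers
-/

set_option autoImplicit false

namespace Pool.Agent.H700.VG

open Finset Pool.Agent.R533.VC Pool.Agent.H700.VB

section defs

variable {s : ℕ}

/-- the powers of `γ` in the parts with number in `T` -/
def part {N : ℕ} (dd : Fin s → ℕ) (T : Finset (Fin s)) (γ : Finset (Fin N)) : Finset (Pt dd N) :=
  T.sigma fun _ => Fintype.piFinset fun _ => γ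

/-- The family `S` of subsets of the disjoint union of the powers `[N] ^ (dd r)` contains a configuration: the
sets `A ∪ (the powers of γ in the parts with number in T)`, for all `T ∈ 𝒯`, where `γ ⊆ [N]` is not empty and `A`
is disjoint from all the powers of `γ`. -/
def Good {N : ℕ} {dd : Fin s → ℕ} (𝒯 : Finset (Finset (Fin s))) (S : Finset (Finset (Pt dd N))) :
    Prop :=
  ∃ (A : Finset (Pt dd N)) (γ : Finset (Fin N)), γ.Nonempty ∧ Disjoint A (part dd univ γ) ∧
    ∀ T ∈ 𝒯, A ∪ part dd T γ ∈ S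

end defs

section blocks

variable {s : ℕ} {dd : Fin s → ℕ} {N l : ℕ}

theorem mem_part (T : Finset (Fin s)) (γ : Finset (Fin N)) (x : Pt dd N) :
    x ∈ part dd T γ ↔ x.1 ∈ T ∧ ∀ i, x.2 i ∈ γ := by
  rw [part, mem_sigma, Fintype.mem_piFinset]

open Classical in
/-- transport of a set of tuples -/
noncomputable def tra (e : Fin l → Fin N) (a : Set (Pt dd l)) : Finset (Pt dd N) :=
  univ.filter fun c => ∃ x : Fin (dd c.1) → Fin l, (⟨c.1, x⟩ : Pt dd l) ∈ a ∧
    (fun i => e (x i)) = c.2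

theorem mem_tra (e : Fin l → Fin N) (a : Set (Pt dd l)) (c : Pt dd N) :
    c ∈ tra e a ↔ ∃ x : Fin (dd c.1) → Fin l, (⟨c.1, x⟩ : Pt dd l) ∈ a ∧
      (fun i => e (x i)) = c.2 := by
  classical
  unfold tra
  rw [mem_filter]
  exact ⟨fun h => h.2, fun h => ⟨mem_univ _, h⟩⟩

theorem tra_union (e : Fin l → Fin N) (a b : Set (Pt dd l)) :
    tra e (a ∪ b) = tra e a ∪ tra e b := by
  ext c
  rw [mem_union, mem_tra, mem_tra, mem_tra]
  constructor
  · rintro ⟨x, hx | hx, h⟩
    · exact Or.inl ⟨x, hx, h⟩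
    · exact Or.inr ⟨x, hx, h⟩
  · rintro (⟨x, hx, h⟩ | ⟨x, hx, h⟩)
    · exact ⟨x, Or.inl hx, h⟩
    · exact ⟨x, Or.inr hx, h⟩

theorem tra_sub (e : Fin l → Fin N) (I : Finset (Fin N)) (he : ∀ i, e i ∈ I)
    (a : Set (Pt dd l)) : tra e a ⊆ part dd univ I := by
  intro c hc
  rw [mem_tra] at hc
  obtain ⟨x, -, hx⟩ := hc
  rw [mem_part]
  refine ⟨mem_univ _, fun i => ?_⟩
  rw [← hx]
  exact he _

theorem tra_disj (e : Fin l → Fin N) (he : Function.Injective e) (a b : Set (Pt dd l))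
    (h : Disjoint a b) : Disjoint (tra e a) (tra e b) := by
  rw [Finset.disjoint_left]
  intro c hc hc'
  rw [mem_tra] at hc hc'
  obtain ⟨x, hx, hxc⟩ := hc
  obtain ⟨y, hy, hyc⟩ := hc'
  have : y = x := funext fun i => he (congrFun (hyc.trans hxc.symm) i)
  subst this
  exact Set.disjoint_left.1 h hx hy

theorem exists_part (e : Fin l → Fin N) (γ : Set (Fin l)) (h : γ.Nonempty) :
    ∃ Γ : Finset (Fin N), Γ.Nonempty ∧
      ∀ T : Finset (Fin s), tra e (powSet dd (T : Set (Fin s)) γ) = part dd T Γ := by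
  classical
  refine ⟨(univ.filter fun i : Fin l => i ∈ γ).image e, ?_, fun T => ?_⟩
  · obtain ⟨b, hb⟩ := h
    exact ⟨e b, mem_image_of_mem _ (mem_filter.2 ⟨mem_univ _, hb⟩)⟩
  · ext c
    rw [mem_tra, mem_part]
    constructor
    · rintro ⟨x, ⟨h0, hx⟩, hxc⟩
      refine ⟨h0, fun i => ?_⟩
      rw [← hxc]
      exact mem_image_of_mem _ (mem_filter.2 ⟨mem_univ _, hx i⟩)
    · rintro ⟨h0, h⟩
      choose x hx hxc using fun i => mem_image.1 (h i)
      exact ⟨x, ⟨h0, fun i => (mem_filter.1 (hx i)).2⟩, funext hxc⟩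

theorem coe_part (T : Finset (Fin s)) (γ : Finset (Fin N)) :
    ((part dd T γ : Finset (Pt dd N)) : Set (Pt dd N)) =
      powSet dd (T : Set (Fin s)) (γ : Set (Fin N)) := by
  ext x
  rw [mem_coe, mem_part]
  rfl

theorem card_part (I : Finset (Fin N)) (hI : #I = l) :
    #(part dd univ I) = Fintype.card (Pt dd l) := by
  rw [part, card_sigma, Fintype.card_sigma]
  refine sum_congr rfl fun r _ => ?_
  rw [Fintype.card_piFinset]
  simp [hI]

/-- For bounded VC dimension there is a copy of the subsets whose members differ at few places only. -/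
theorem close_gcopy (hdd : ∀ r, 1 ≤ dd r) (n D e : ℕ) (he : 1 ≤ e) : ∃ l : ℕ,
    ∀ (X : Type) (A : Finset X) (F : X → Set (Pt dd l) → Bool), A.Nonempty →
      Growth F D → ∃ (a : Set (Pt dd l)) (q : Fin l → Option (Fin n)),
        (∀ j, ∃ b, q b = some j) ∧ ∀ Z Z' : Set (Pt dd n),
          e * dif F A (gcop a q Z) (gcop a q Z') ≤ 2 * A.card := by
  classical
  set K := 2 ^ (2 * D * (2 * e + 2 * D) + 2) with hK
  obtain ⟨l, hl⟩ := gmulti hdd n (Fin K)
  refine ⟨l, fun X A F hA hF => ?_⟩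
  obtain ⟨P, hsep, cen, hcen⟩ := cover F A (univ : Finset (Set (Pt dd l))) e
  have hP : P.card ≤ K := pack F D hF A hA P e he hsep (2 * e) (2 * D)
    Nat.lt_two_pow_self.le Nat.lt_two_pow_self.le
  obtain ⟨ε⟩ : Nonempty (P ↪ Fin K) := Function.Embedding.nonempty_of_card_le (by
    rw [Fintype.card_fin, Fintype.card_coe]
    exact hP)
  obtain ⟨a, q, h1, h2⟩ := hl fun a => ε ⟨cen a, (hcen a (mem_univ a)).1⟩
  refine ⟨a, q, h1, fun Z Z' => ?_⟩
  have h4 := congrArg Subtype.val (ε.injective (h2 Z Z'))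
  simp only at h4
  have h5 := (hcen (gcop a q Z) (mem_univ _)).2
  have h6 := (hcen (gcop a q Z') (mem_univ _)).2
  rw [← h4] at h6
  calc e * dif F A (gcop a q Z) (gcop a q Z')
      ≤ e * (dif F A (gcop a q Z) (cen (gcop a q Z)) +
          dif F A (gcop a q Z') (cen (gcop a q Z))) :=
        Nat.mul_le_mul_left _ (dif_triangle _ _ _ _ _)
    _ = e * dif F A (gcop a q Z) (cen (gcop a q Z)) +
        e * dif F A (gcop a q Z') (cen (gcop a q Z)) := by ring
    _ ≤ _ := by omega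

end blocks

/-- **Main theorem.** If the families of subsets of the disjoint union of the powers of `[n]` which are not good
have density at most `τ`, then the families `S ⊆ F` which are not good have relative density at most `τ` in `F`,
up to `ε`, for all `F` which are Boolean combinations of `r` families whose sections at blocks have bounded VC
dimension. -/
theorem main {s : ℕ} (dd : Fin s → ℕ) (hdd : ∀ r, 1 ≤ dd r) (𝒯 : Finset (Finset (Fin s)))
    (n : ℕ) (τ : ℝ) (hτ0 : 0 ≤ τ)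
    (hτ : ∀ T : Finset (Finset (Pt dd n)), τ * 2 ^ Fintype.card (Pt dd n) < #T → Good 𝒯 T)
    (D r : ℕ) (ε : ℝ) (hε : 0 < ε) :
    ∃ (l M : ℕ), ∀ (N : ℕ) (I : Fin M → Finset (Fin N)),
      (∀ k, #(I k) = l) → (∀ j k, j ≠ k → Disjoint (I j) (I k)) →
      ∀ (G : Fin r → Finset (Finset (Pt dd N))) (g : (Fin r → Bool) → Bool)
        (F S : Finset (Finset (Pt dd N))),
        (∀ i k, SectionsVC D (part dd univ (I k)) (univ.biUnion fun k => part dd univ (I k)) (G i)) →
        (∀ A, A ∈ F ↔ g (fun i => decide (A ∈ G i)) = true) → S ⊆ F → ¬ Good 𝒯 S →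
        (#S : ℝ) ≤ τ * #F + ε * 2 ^ Fintype.card (Pt dd N) := by
  classical
  -- the parameters
  set K : ℝ := 2 ^ Fintype.card (Pt dd n) with hK
  have hK0 : 0 < K := by positivity
  obtain ⟨e₀, he₀⟩ := exists_nat_ge (4 * τ * K / ε)
  set e : ℕ := e₀ + 1 with he
  have he1 : 1 ≤ e := by omega
  have he0 : (0 : ℝ) < e := by exact_mod_cast he1
  have heε : τ * K * (2 / e) ≤ ε / 2 := by
    have h1 : 4 * τ * K / ε ≤ (e : ℝ) := by
      rw [he]; push_cast; linarith
    rw [div_le_iff₀ hε] at h1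
    rw [mul_div_assoc', div_le_iff₀ he0]
    linarith
  obtain ⟨l, hl⟩ := close_gcopy hdd n (∑ _i : Fin r, 2 ^ (D + 1)) e he1
  set c : ℕ := Fintype.card (Pt dd l) with hc
  obtain ⟨M, hM⟩ := exists_nat_gt ((2 * (1 + τ) / ε) ^ 2 * 2 ^ c)
  refine ⟨l, M, ?_⟩
  intro N I hI hdis G g F S hG hF hSF hgood
  set μ : ℝ := (M : ℝ) / 2 ^ c with hμ
  have hμ1 : (2 * (1 + τ) / ε) ^ 2 < μ := by rw [hμ, lt_div_iff₀ (by positivity)]; exact hM
  have hμ0 : 0 < μ := lt_of_le_of_lt (sq_nonneg _) hμ1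
  set W : ℝ := 2 ^ Fintype.card (Pt dd N) with hW
  have hW0 : 0 < W := by positivity
  set C : Fin M → Finset (Pt dd N) := fun k => part dd univ (I k) with hC
  set U : Finset (Pt dd N) := univ.biUnion fun k => part dd univ (I k) with hU
  have hCU : ∀ k, C k ⊆ U := fun k => subset_biUnion_of_mem (fun k => part dd univ (I k)) (mem_univ k)
  have hCc : ∀ k, #(C k) = c := by
    intro k
    exact card_part (I k) (hI k)
  have hCd : ∀ j k, j ≠ k → Disjoint (C j) (C k) := by
    intro j k hjk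
    rw [Finset.disjoint_left]
    intro x hx hx'
    have h1 : x ∈ part dd univ (I j) := hx
    have h2 : x ∈ part dd univ (I k) := hx'
    rw [mem_part] at h1 h2
    exact Finset.disjoint_left.1 (hdis j k hjk) (h1.2 ⟨0, hdd x.1⟩) (h2.2 ⟨0, hdd x.1⟩)
  let em : Fin M → Fin l → Fin N := fun k => (I k).orderEmbOfFin (hI k)
  have hem : ∀ k i, em k i ∈ I k := fun k i => orderEmbOfFin_mem _ _ _
  have hemi : ∀ k, Function.Injective (em k) := fun k => ((I k).orderEmbOfFin (hI k)).injective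
  have hcard : (Fintype.card (Finset (Pt dd n)) : ℝ) = K := by
    rw [Fintype.card_finset, hK]
    push_cast
    rfl
  -- one slice
  have hslice : ∀ ρ ∈ Uᶜ.powerset,
      K * (μ * #(univ.filter fun X : Finset (Pt dd N) => X ∩ U ∪ ρ ∈ S) - Real.sqrt μ * W) ≤
        τ * K * (μ * #(univ.filter fun X : Finset (Pt dd N) => X ∩ U ∪ ρ ∈ F) +
          Real.sqrt μ * W + μ * (K * (2 / e * W))) := by
    intro ρ hρ
    rw [mem_powerset] at hρ
    have hρU : Disjoint ρ U := by
      rw [Finset.disjoint_left]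
      intro x hx hx'
      exact (mem_compl.1 (hρ hx)) hx'
    -- the copies
    have hpair : ∀ k, ∃ (a : Set (Pt dd l)) (q : Fin l → Option (Fin n)),
        (∀ j, ∃ b, q b = some j) ∧ ∀ Z Z' : Set (Pt dd n),
        e * dif (fun (X : Finset (Pt dd N)) (a : Set (Pt dd l)) =>
          decide ((X \ C k ∪ tra (em k) a) ∩ U ∪ ρ ∈ F)) univ (gcop a q Z) (gcop a q Z') ≤
          2 * #(univ : Finset (Finset (Pt dd N))) := by
      intro k
      refine hl _ univ _ ⟨∅, mem_univ _⟩ ?_
      have hgr := growth_comp r (fun (i : Fin r) (X : Finset (Pt dd N))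
        (a : Set (Pt dd l)) => decide ((X \ C k ∪ tra (em k) a) ∩ U ∪ ρ ∈ G i))
        (fun _ => 2 ^ (D + 1)) (fun i => growth_of_vc _ _ (vc_dual _ D ?_)) (fun _ => g)
      · have e1 : (fun (X : Finset (Pt dd N)) (a : Set (Pt dd l)) =>
            decide ((X \ C k ∪ tra (em k) a) ∩ U ∪ ρ ∈ F)) =
            fun (X : Finset (Pt dd N)) (a : Set (Pt dd l)) =>
              g fun i => decide ((X \ C k ∪ tra (em k) a) ∩ U ∪ ρ ∈ G i) := by
          funext X a
          rw [Bool.eq_iff_iff, decide_eq_true_iff]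
          exact hF _
        rw [e1]
        exact hgr
      · intro n y hy
        refine hG i k ρ hρU n (fun j => tra (em k) (y j)) (fun j => tra_sub _ _ (hem k) _) ?_
        intro T
        obtain ⟨X, hX⟩ := hy T
        refine ⟨(X \ C k) ∩ U, ?_, fun j => ?_⟩
        · intro x hx
          rw [mem_inter, mem_sdiff] at hx
          exact mem_sdiff.2 ⟨hx.2, hx.1.2⟩
        · have h1 := hX j
          have h2 : tra (em k) (y j) ∪ (X \ C k) ∩ U ∪ ρ =
              (X \ C k ∪ tra (em k) (y j)) ∩ U ∪ ρ :=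
            set1 _ _ _ _ _ ((tra_sub (em k) (I k) (hem k) (y j)).trans (hCU k))
          rw [h2, ← h1, decide_eq_true_iff]
    choose a q hq hclose using hpair
    have hres := slice (Ξ := Finset (Pt dd n)) C
      (fun k X => tra (em k) (gcop (a k) (q k) (X : Set (Pt dd n))))
      (fun k X => tra_sub _ _ (hem k) _) hCc hCd
      (univ.filter fun X : Finset (Pt dd N) => X ∩ U ∪ ρ ∈ F)
      (univ.filter fun X : Finset (Pt dd N) => X ∩ U ∪ ρ ∈ S)
      (fun X hX => by
        rw [mem_filter] at hX ⊢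
        exact ⟨hX.1, hSF hX.2⟩) ∅ τ (2 / e) hτ0 ?_ ?_
    · rw [hcard] at hres
      exact hres
    · intro k X
      have h1 := hclose k ((∅ : Finset (Pt dd n)) : Set (Pt dd n)) (X : Set (Pt dd n))
      rw [card_univ, Fintype.card_finset] at h1
      have h2 : (univ.filter fun Y : Finset (Pt dd N) =>
          ¬ ((Y \ C k) ∪ tra (em k) (gcop (a k) (q k)
              ((∅ : Finset (Pt dd n)) : Set (Pt dd n))) ∈
              (univ.filter fun X : Finset (Pt dd N) => X ∩ U ∪ ρ ∈ F) ↔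
            (Y \ C k) ∪ tra (em k) (gcop (a k) (q k) (X : Set (Pt dd n))) ∈
              (univ.filter fun X : Finset (Pt dd N) => X ∩ U ∪ ρ ∈ F))) =
          univ.filter fun Y : Finset (Pt dd N) =>
            decide ((Y \ C k ∪ tra (em k) (gcop (a k) (q k)
              ((∅ : Finset (Pt dd n)) : Set (Pt dd n)))) ∩ U ∪ ρ ∈ F) ≠
              decide ((Y \ C k ∪ tra (em k) (gcop (a k) (q k) (X : Set (Pt dd n)))) ∩ U ∪ ρ ∈
                F) := by
        ext Y
        simp only [mem_filter, mem_univ, true_and, ne_eq, decide_eq_decide]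
      rw [h2]
      unfold dif at h1
      rw [div_mul_eq_mul_div, le_div_iff₀ he0, mul_comm]
      exact_mod_cast h1
    · intro k Y
      rw [hcard, hK]
      by_contra hcon
      rw [not_le] at hcon
      obtain ⟨A, γ, hγ, hdisj, hA⟩ := hτ _ hcon
      set γ' : Set (Fin l) := {b | ∃ j ∈ (γ : Set (Fin n)), q k b = some j} with hγ'
      have hdisj' : Disjoint (gcop (a k) (q k) (A : Set (Pt dd n)))
          (powSet dd ((univ : Finset (Fin s)) : Set (Fin s)) γ') := by
        refine gcop_disj _ _ _ _ _ ?_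
        rw [← coe_part]
        exact_mod_cast hdisj
      obtain ⟨Γ, hΓne, hΓ⟩ := exists_part (dd := dd) (em k) γ' (by
        obtain ⟨j, hj⟩ := hγ
        obtain ⟨b, hb⟩ := hq k j
        exact ⟨b, j, hj, hb⟩)
      refine hgood ⟨(Y \ C k ∪ tra (em k) (gcop (a k) (q k) (A : Set (Pt dd n)))) ∩ U ∪ ρ, Γ,
        hΓne, ?_, fun T hT => ?_⟩
      · rw [← hΓ]
        rw [Finset.disjoint_left]
        intro x hx hx'
        have h3 : x ∈ C k := tra_sub (em k) (I k) (hem k) _ hx'
        rw [mem_union, mem_inter, mem_union, mem_sdiff] at hx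
        rcases hx with ⟨h4 | h4, -⟩ | h4
        · exact h4.2 h3
        · exact Finset.disjoint_left.1 (tra_disj (em k) (hemi k) _ _ hdisj') h4 hx'
        · exact Finset.disjoint_left.1 hρU h4 (hCU k h3)
      · have h2 := hA T hT
        rw [mem_filter, mem_filter] at h2
        replace h2 := h2.2.2
        rw [coe_union, coe_part, gcop_union, tra_union] at h2
        rw [← hΓ, set2 _ _ _ _ _ _ ((tra_sub (em k) (I k) (hem k)
          (powSet dd (T : Set (Fin s)) γ')).trans (hCU k))]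
        exact h2
  have hsum := sum_le_sum hslice
  have s1 := slices_sum U F
  have s2 := slices_sum U S
  have s1' : ∑ ρ ∈ Uᶜ.powerset, (#(univ.filter fun X : Finset (Pt dd N) =>
      X ∩ U ∪ ρ ∈ F) : ℝ) = #F * 2 ^ #Uᶜ := by exact_mod_cast s1
  have s2' : ∑ ρ ∈ Uᶜ.powerset, (#(univ.filter fun X : Finset (Pt dd N) =>
      X ∩ U ∪ ρ ∈ S) : ℝ) = #S * 2 ^ #Uᶜ := by exact_mod_cast s2
  rw [← mul_sum, ← mul_sum, sum_sub_distrib, sum_add_distrib, sum_add_distrib, sum_const, sum_const,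
    ← mul_sum, ← mul_sum, s1', s2', card_powerset, nsmul_eq_mul, nsmul_eq_mul] at hsum
  set Q : ℝ := (2 : ℝ) ^ #Uᶜ with hQ
  have hQ0 : 0 < Q := by positivity
  have hcast : ((2 ^ #Uᶜ : ℕ) : ℝ) = Q := by rw [hQ]; push_cast; rfl
  rw [hcast] at hsum
  have h5 : μ * #S - Real.sqrt μ * W ≤ τ * (μ * #F + Real.sqrt μ * W + μ * (K * (2 / e * W))) := by
    have hKQ : 0 < K * Q := mul_pos hK0 hQ0
    refine le_of_mul_le_mul_left ?_ hKQ
    have e1 : K * Q * (μ * #S - Real.sqrt μ * W) =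
        K * (μ * (#S * Q) - Q * (Real.sqrt μ * W)) := by ring
    have e2 : K * Q * (τ * (μ * #F + Real.sqrt μ * W + μ * (K * (2 / e * W)))) =
        τ * K * (μ * (#F * Q) + Q * (Real.sqrt μ * W) + Q * (μ * (K * (2 / e * W)))) := by ring
    rw [e1, e2]
    exact hsum
  have hs : Real.sqrt μ * Real.sqrt μ = μ := Real.mul_self_sqrt hμ0.le
  have hs0 : 0 < Real.sqrt μ := Real.sqrt_pos.2 hμ0
  have h6 : 2 * (1 + τ) / ε ≤ Real.sqrt μ := Real.le_sqrt_of_sq_le hμ1.le
  have h7 : (1 + τ) * Real.sqrt μ ≤ μ * (ε / 2) := by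
    rw [div_le_iff₀ hε] at h6
    calc (1 + τ) * Real.sqrt μ = (2 * (1 + τ)) * Real.sqrt μ / 2 := by ring
      _ ≤ (Real.sqrt μ * ε) * Real.sqrt μ / 2 := by
          have := mul_le_mul_of_nonneg_right h6 hs0.le
          linarith
      _ = (Real.sqrt μ * Real.sqrt μ) * (ε / 2) := by ring
      _ = _ := by rw [hs]
  have h8 : (1 + τ) * Real.sqrt μ * W ≤ μ * (ε / 2) * W := mul_le_mul_of_nonneg_right h7 hW0.le
  have h9 : μ * (τ * K * (2 / e)) * W ≤ μ * (ε / 2) * W :=
    mul_le_mul_of_nonneg_right (mul_le_mul_of_nonneg_left heε hμ0.le) hW0.le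
  refine le_of_mul_le_mul_left ?_ hμ0
  have e3 : τ * (μ * #F + Real.sqrt μ * W + μ * (K * (2 / e * W))) + Real.sqrt μ * W =
      μ * (τ * #F) + (1 + τ) * Real.sqrt μ * W + μ * (τ * K * (2 / e)) * W := by ring
  have e4 : μ * (τ * #F + ε * W) = μ * (τ * #F) + μ * (ε / 2) * W + μ * (ε / 2) * W := by ring
  rw [e4]
  linarith

end Pool.Agent.H700.VG
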