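import Pool.Agent.H700.VB.Multi

/-!
# Monochromatic copies of all the subsets of a disjoint union of powers
-/

set_option autoImplicit false

namespace Pool.Agent.H700.VG

open Finset Pool.Agent.Y613.PJ Pool.Agent.H700.VB

/-- The disjoint union of the powers `[N] ^ (dd r)`, `r < s`. -/
abbrev Pt {s : ℕ} (dd : Fin s → ℕ) (N : ℕ) : Type := Σ r : Fin s, (Fin (dd r) → Fin N)

variable {s : ℕ} {dd : Fin s → ℕ}

/-- the tuple as a cell -/
def pad (D : ℕ) {ι : Type} {m : ℕ} (x : Fin m → ι) : Cell D ι :=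
  fun i => if h : (i : ℕ) < m then some (x ⟨i, h⟩) else none

theorem full_pad {D m n : ℕ} {ι : Type} (hm : 1 ≤ m) (hmD : m ≤ D) (q : ι → Option (Fin n))
    (x : Fin m → ι) : Full q (pad D x) ↔ ∀ i, (q (x i)).isSome := by
  constructor
  · rintro ⟨-, h⟩ i
    refine h ⟨i, by omega⟩ (x i) ?_
    unfold pad
    rw [dif_pos i.2]
  · intro h
    refine ⟨⟨⟨0, by omega⟩, ?_⟩, fun i b hb => ?_⟩
    · unfold pad
      rw [dif_pos (show 0 < m by omega)]
      rfl
    · unfold pad at hb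
      split_ifs at hb with h1
      rw [Option.some_inj] at hb
      rw [← hb]
      exact h _

theorem bind_pad {D m n : ℕ} {ι : Type} (hmD : m ≤ D) (q : ι → Option (Fin n))
    (x : Fin m → ι) (p : Fin m → Fin n) :
    (fun i => (pad D x i).bind q) = pad D p ↔ ∀ i, q (x i) = some (p i) := by
  constructor
  · intro h i
    have := congrFun h ⟨i, by omega⟩
    unfold pad at this
    simp only at this
    rw [dif_pos i.2, dif_pos i.2] at this
    exact this
  · intro h
    funext i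
    unfold pad
    by_cases h1 : (i : ℕ) < m
    · rw [dif_pos h1, dif_pos h1]
      exact h _
    · rw [dif_neg h1, dif_neg h1]
      rfl

/-- the copy of the set `X` -/
def gcop {l n : ℕ} (a : Set (Pt dd l)) (q : Fin l → Option (Fin n))
    (X : Set (Pt dd n)) : Set (Pt dd l) :=
  {x | (∃ p : Fin (dd x.1) → Fin n, (⟨x.1, p⟩ : Pt dd n) ∈ X ∧ ∀ i, q (x.2 i) = some (p i)) ∨
    (x ∈ a ∧ ∃ i, q (x.2 i) = none)}

theorem gmulti (hdd : ∀ r, 1 ≤ dd r) (n : ℕ) (κ : Type) [Finite κ] :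
    ∃ l : ℕ, ∀ χ : Set (Pt dd l) → κ,
      ∃ (a : Set (Pt dd l)) (q : Fin l → Option (Fin n)),
        (∀ j, ∃ b, q b = some j) ∧ ∀ X Y : Set (Pt dd n), χ (gcop a q X) = χ (gcop a q Y) := by
  classical
  set D := univ.sup dd + 1 with hD
  have hdD : ∀ r, dd r ≤ D := fun r => (le_sup (f := dd) (mem_univ r)).trans (by omega)
  obtain ⟨ι, hι, h⟩ := multi D (by omega) n (Fin s → Prop) κ
  have hfin : Fintype ι := Fintype.ofFinite ι
  let e := Fintype.equivFin ι
  refine ⟨Fintype.card ι, fun χ => ?_⟩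
  obtain ⟨a, q, c, h1, h2⟩ := h fun B => χ {x | B (pad D fun i => e.symm (x.2 i)) x.1}
  refine ⟨{x | a (pad D fun i => e.symm (x.2 i)) x.1}, fun b => q (e.symm b), fun j => ?_, ?_⟩
  · obtain ⟨b, hb⟩ := h1 j
    exact ⟨e b, by simpa using hb⟩
  · have key : ∀ X : Set (Pt dd n),
        χ (gcop {x | a (pad D fun i => e.symm (x.2 i)) x.1} (fun b => q (e.symm b)) X) = c := by
      intro X
      rw [← h2 fun y r => ∃ p : Fin (dd r) → Fin n, (⟨r, p⟩ : Pt dd n) ∈ X ∧ y = pad D p]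
      congr 1
      ext x
      have e1 := full_pad (D := D) (hdd x.1) (hdD x.1) q (fun i => e.symm (x.2 i))
      have e2 : ∀ p : Fin (dd x.1) → Fin n, (fun i => (pad D (fun i => e.symm (x.2 i)) i).bind q) =
          pad D p ↔ ∀ i, q (e.symm (x.2 i)) = some (p i) := fun p => bind_pad (hdD x.1) q _ p
      show ((∃ p : Fin (dd x.1) → Fin n, (⟨x.1, p⟩ : Pt dd n) ∈ X ∧
        ∀ i, q (e.symm (x.2 i)) = some (p i)) ∨
        ((a (pad D fun i => e.symm (x.2 i)) x.1) ∧ ∃ i, q (e.symm (x.2 i)) = none)) ↔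
          subst a q (fun y r => ∃ p : Fin (dd r) → Fin n, (⟨r, p⟩ : Pt dd n) ∈ X ∧ y = pad D p)
            (pad D fun i => e.symm (x.2 i)) x.1
      unfold subst
      by_cases h3 : ∀ i, (q (e.symm (x.2 i))).isSome
      · rw [if_pos (e1.2 h3)]
        have h4 : ¬ ∃ i, q (e.symm (x.2 i)) = none := by
          rintro ⟨i, hi⟩
          have := h3 i
          rw [hi] at this
          simp at this
        constructor
        · rintro (⟨p, hp, hp'⟩ | h5)
          · exact ⟨p, hp, (e2 p).2 hp'⟩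
          · exact absurd h5.2 h4
        · rintro ⟨p, hp, hp'⟩
          exact Or.inl ⟨p, hp, (e2 p).1 hp'⟩
      · rw [if_neg fun h => h3 (e1.1 h)]
        have h4 : ∃ i, q (e.symm (x.2 i)) = none := by
          by_contra hcon
          push Not at hcon
          exact h3 fun i => Option.isSome_iff_ne_none.2 (hcon i)
        constructor
        · rintro (⟨p, -, h5⟩ | h5)
          · obtain ⟨i, hi⟩ := h4
            rw [h5 i] at hi
            simp at hi
          · exact h5.1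
        · intro h5
          exact Or.inr ⟨h5, h4⟩
    intro X Y
    rw [key X, key Y]

/-- the powers of `γ` in the parts with number in `T` -/
def powSet {N : ℕ} (dd : Fin s → ℕ) (T : Set (Fin s)) (γ : Set (Fin N)) : Set (Pt dd N) :=
  {x | x.1 ∈ T ∧ ∀ i, x.2 i ∈ γ}

theorem gcop_union {l n : ℕ} (a : Set (Pt dd l)) (q : Fin l → Option (Fin n))
    (X : Set (Pt dd n)) (T : Set (Fin s)) (γ : Set (Fin n)) :
    gcop a q (X ∪ powSet dd T γ) =
      gcop a q X ∪ powSet dd T {b | ∃ j ∈ γ, q b = some j} := by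
  ext x
  constructor
  · rintro (⟨p, hp | hp, h⟩ | h)
    · exact Or.inl (Or.inl ⟨p, hp, h⟩)
    · exact Or.inr ⟨hp.1, fun i => ⟨p i, hp.2 i, h i⟩⟩
    · exact Or.inl (Or.inr h)
  · rintro ((⟨p, hp, h⟩ | h) | ⟨h0, h⟩)
    · exact Or.inl ⟨p, Or.inl hp, h⟩
    · exact Or.inr h
    · choose p hp hp' using h
      exact Or.inl ⟨p, Or.inr ⟨h0, hp⟩, hp'⟩

theorem gcop_disj {l n : ℕ} (a : Set (Pt dd l)) (q : Fin l → Option (Fin n))
    (X : Set (Pt dd n)) (T : Set (Fin s)) (γ : Set (Fin n)) (h : Disjoint X (powSet dd T γ)) :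
    Disjoint (gcop a q X) (powSet dd T {b | ∃ j ∈ γ, q b = some j}) := by
  rw [Set.disjoint_left]
  rintro x (⟨p, hp, h1⟩ | ⟨-, i, hi⟩) ⟨hx0, hx⟩
  · refine Set.disjoint_left.1 h hp ⟨hx0, fun i => ?_⟩
    obtain ⟨j, hj, hj'⟩ := hx i
    rw [h1 i, Option.some_inj] at hj'
    show p i ∈ γ
    rw [hj']
    exact hj
  · obtain ⟨j, -, hj'⟩ := hx i
    rw [hi] at hj'
    simp at hj'

end Pool.Agent.H700.VG
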