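import Pool.Agent.H700.VG.Main

/-!
# The elementary density, functions of bounded rank, trigonometric polynomials
-/

set_option autoImplicit false

namespace Pool.Agent.H700.VG

open Finset Pool.Agent.H700.VB

/-- Families of density more than `1 - 1 / m` contain configurations with `m` members. -/
theorem triv {s : ℕ} (dd : Fin s → ℕ) (hdd : ∀ r, 1 ≤ dd r) (𝒯 : Finset (Finset (Fin s)))
    (h𝒯 : 𝒯.Nonempty) (τ : ℝ) (hτ : 1 - 1 / (#𝒯 : ℝ) < τ) :
    ∃ n : ℕ, ∀ S : Finset (Finset (Pt dd n)), τ * 2 ^ Fintype.card (Pt dd n) < #S →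
      Good 𝒯 S := by
  classical
  set m : ℝ := (#𝒯 : ℝ) with hm
  have hm1 : 1 ≤ m := by
    rw [hm]
    exact_mod_cast h𝒯.card_pos
  set τ₀ : ℝ := 1 - 1 / m with hτ₀
  have hτ00 : 0 ≤ τ₀ := by
    have : 1 / m ≤ 1 := by
      rw [div_le_one (by linarith)]
      exact hm1
    rw [hτ₀]; linarith
  have hη : 0 < τ - τ₀ := by linarith
  set c : ℕ := Fintype.card (Pt dd 1) with hc
  obtain ⟨n, hn⟩ := exists_nat_gt (((1 + τ₀) / (τ - τ₀)) ^ 2 * 2 ^ c)
  refine ⟨n, fun S hS => ?_⟩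
  by_contra hgood
  set μ : ℝ := (n : ℝ) / 2 ^ c with hμ
  have hμ1 : ((1 + τ₀) / (τ - τ₀)) ^ 2 < μ := by rw [hμ, lt_div_iff₀ (by positivity)]; exact hn
  have hμ0 : 0 < μ := lt_of_le_of_lt (sq_nonneg _) hμ1
  set W : ℝ := 2 ^ Fintype.card (Pt dd n) with hW
  have hW0 : 0 < W := by positivity
  obtain ⟨T₀, hT₀⟩ := h𝒯
  have hcardΞ : (Fintype.card {T // T ∈ 𝒯} : ℝ) = m := by
    rw [Fintype.card_coe]
  have hmono : ∀ (T : Finset (Fin s)) (γ : Finset (Fin n)), part dd T γ ⊆ part dd univ γ := by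
    intro T γ x hx
    rw [mem_part] at hx ⊢
    exact ⟨mem_univ _, hx.2⟩
  have hres := slice (Ξ := {T // T ∈ 𝒯}) (c := c) (fun i : Fin n => part dd univ {i})
    (fun i T => part dd T.1 {i}) (fun i T => hmono _ _)
    (fun i => card_part {i} (card_singleton i)) (fun i j hij => ?_)
    (univ : Finset (Finset (Pt dd n))) S (subset_univ _) ⟨T₀, hT₀⟩ τ₀ 0 hτ00 (fun j X => ?_)
    (fun i Y => ?_)
  · rw [hcardΞ, card_univ, Fintype.card_finset] at hres
    have hcW : (((2 ^ Fintype.card (Pt dd n) : ℕ)) : ℝ) = W := by rw [hW]; push_cast; rfl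
    rw [hcW, zero_mul, mul_zero, mul_zero, add_zero] at hres
    have hm0 : 0 < m := by linarith
    have h1 : μ * #S - Real.sqrt μ * W ≤ τ₀ * (μ * W + Real.sqrt μ * W) := by
      refine le_of_mul_le_mul_left ?_ hm0
      calc m * (μ * #S - Real.sqrt μ * W) ≤ τ₀ * m * (μ * W + Real.sqrt μ * W) := hres
        _ = _ := by ring
    have hs : Real.sqrt μ * Real.sqrt μ = μ := Real.mul_self_sqrt hμ0.le
    have hs0 : 0 < Real.sqrt μ := Real.sqrt_pos.2 hμ0
    have h6 : (1 + τ₀) / (τ - τ₀) ≤ Real.sqrt μ := Real.le_sqrt_of_sq_le hμ1.le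
    have h7 : (1 + τ₀) * Real.sqrt μ ≤ μ * (τ - τ₀) := by
      rw [div_le_iff₀ hη] at h6
      calc (1 + τ₀) * Real.sqrt μ ≤ (Real.sqrt μ * (τ - τ₀)) * Real.sqrt μ :=
            mul_le_mul_of_nonneg_right h6 hs0.le
        _ = (Real.sqrt μ * Real.sqrt μ) * (τ - τ₀) := by ring
        _ = _ := by rw [hs]
    have h8 : (1 + τ₀) * Real.sqrt μ * W ≤ μ * (τ - τ₀) * W :=
      mul_le_mul_of_nonneg_right h7 hW0.le
    have h9 : μ * (τ * W) < μ * #S := mul_lt_mul_of_pos_left hS hμ0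
    have e1 : τ₀ * (μ * W + Real.sqrt μ * W) + Real.sqrt μ * W =
        μ * (τ₀ * W) + (1 + τ₀) * Real.sqrt μ * W := by ring
    have e2 : μ * (τ * W) = μ * (τ₀ * W) + μ * (τ - τ₀) * W := by ring
    linarith
  · rw [Finset.disjoint_left]
    intro x hx hx'
    rw [mem_part] at hx hx'
    have h1 := mem_singleton.1 (hx.2 ⟨0, hdd x.1⟩)
    have h2 := mem_singleton.1 (hx'.2 ⟨0, hdd x.1⟩)
    exact hij (h1.symm.trans h2)
  · rw [zero_mul]
    simp
  · have hlt : #(univ.filter fun X : {T // T ∈ 𝒯} =>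
        (Y \ part dd univ {i}) ∪ part dd X.1 {i} ∈ S) < #𝒯 := by
      rw [← Fintype.card_coe 𝒯, ← card_univ]
      refine card_lt_card (Finset.ssubset_iff_subset_ne.2 ⟨subset_univ _, fun heq => ?_⟩)
      refine hgood ⟨Y \ part dd univ {i}, {i}, singleton_nonempty i, sdiff_disjoint,
        fun T hT => ?_⟩
      have := (Finset.ext_iff.1 heq ⟨T, hT⟩).2 (mem_univ _)
      exact (mem_filter.1 this).2
    rw [hcardΞ]
    have h2 : (#(univ.filter fun X : {T // T ∈ 𝒯} =>
        (Y \ part dd univ {i}) ∪ part dd X.1 {i} ∈ S) : ℝ) + 1 ≤ m := by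
      rw [hm]
      exact_mod_cast hlt
    have h3 : τ₀ * m = m - 1 := by
      rw [hτ₀]
      have : m ≠ 0 := by linarith
      field_simp
    rw [h3]
    linarith

/-- The flattening of the function `f` of subsets of `E` at `B` has rank at most `w`: `f A` is a sum of `w`
products of a function of `A ∩ B` and a function of `A \ B`. -/
def FlatRank {E K : Type} [DecidableEq E] [Field K] (w : ℕ) (B : Finset E) (f : Finset E → K) :
    Prop :=
  ∃ a b : Fin w → Finset E → K, ∀ A, f A = ∑ i, a i (A ∩ B) * b i (A \ B)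

theorem sections_of_flat {E K : Type} [DecidableEq E] [Field K] {acc : K → Prop}
    (hacc : Thin K acc) (r : ℕ) (B U : Finset E) (hBU : B ⊆ U)
    (F : Finset (Finset E)) (f : Finset E → K)
    (hF : ∀ A, A ∈ F ↔ acc (f A)) (h : FlatRank r B f) : SectionsVC r B U F := by
  classical
  refine sections_of_rank hacc r B U F f hF fun ρ hρ => ?_
  obtain ⟨a, b, hab⟩ := h
  refine ⟨Fin r, inferInstance, a, fun i Y => b i (Y ∪ ρ), by simp, fun X hX Y hY => ?_⟩
  rw [hab]
  have hρ' : ∀ x, x ∈ ρ → x ∉ U := fun x h h' => Finset.disjoint_left.1 hρ h h'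
  have e1 : (X ∪ Y ∪ ρ) ∩ B = X := by
    ext x
    have h1 := @hX x
    have h2 := @hY x
    have h3 := hρ' x
    have h4 := @hBU x
    simp only [mem_inter, mem_union, mem_sdiff] at h2 ⊢
    tauto
  have e2 : (X ∪ Y ∪ ρ) \ B = Y ∪ ρ := by
    ext x
    have h1 := @hX x
    have h2 := @hY x
    have h3 := hρ' x
    have h4 := @hBU x
    simp only [mem_union, mem_sdiff] at h2 ⊢
    tauto
  rw [e1, e2]

/-- `F` is a Boolean combination of the families `G i`. -/
def Combination {r : ℕ} {E : Type} [DecidableEq E] (G : Fin r → Finset (Finset E))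
    (F : Finset (Finset E)) : Prop :=
  ∃ g : (Fin r → Bool) → Bool, ∀ A, A ∈ F ↔ g (fun i => decide (A ∈ G i)) = true

/-- `G` is the positivity set of a real function, or the support of a function with values in a field, which
has rank at most `w` at all the blocks `B k`. -/
def RankDecided {M : ℕ} {E : Type} [DecidableEq E] (w : ℕ) (B : Fin M → Finset E)
    (G : Finset (Finset E)) : Prop :=
  (∃ f : Finset E → ℝ, (∀ k, FlatRank w (B k) f) ∧ ∀ A, A ∈ G ↔ 0 < f A) ∨
  ∃ (K : Type) (_ : Field K) (f : Finset E → K), (∀ k, FlatRank w (B k) f) ∧ ∀ A, A ∈ G ↔ f A ≠ 0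

/-- `G` is the set of the `A` for which the trigonometric polynomial `∑ b_j cos (φ_j + ∑_(c ∈ A) θ_j(c))` with `t`
frequencies is greater than `u`. -/
def TrigDecided {E : Type} (t : ℕ) (G : Finset (Finset E)) : Prop :=
  ∃ (b φ : Fin t → ℝ) (θ : Fin t → E → ℝ) (u : ℝ),
    ∀ A, A ∈ G ↔ u < ∑ j, b j * Real.cos (φ j + ∑ c ∈ A, θ j c)

theorem sections_of_rankDecided {M : ℕ} {E : Type} [DecidableEq E] (w : ℕ) (B : Fin M → Finset E)
    (U : Finset E) (hBU : ∀ k, B k ⊆ U) (G : Finset (Finset E)) (h : RankDecided w B G)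
    (k : Fin M) : SectionsVC w (B k) U G := by
  rcases h with ⟨f, h1, h2⟩ | ⟨K, hK, f, h1, h2⟩
  · exact sections_of_flat thin_pos w _ _ (hBU k) G f h2 (h1 k)
  · exact sections_of_flat (thin_ne K) w _ _ (hBU k) G f h2 (h1 k)

end Pool.Agent.H700.VG
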